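import Mathlib

/-!
# MP_44129c_co/PL, Comp (size S-M): complete families of positive integers

A finset `S` (with `μ x ≥ 1` on `S`) is complete if every `j ≤ ∑ x ∈ S, μ x` is a subset sum.

`comp_max`: PROOF.  `∅` is complete; take a complete `S₀ ⊆ S` of maximal cardinality, `A = ∑_{S₀} μ`.  If
`x ∈ S \ S₀` had `μ x ≤ A + 1` then `insert x S₀` would be complete: `j ≤ A`: inside `S₀`;
`A < j ≤ A + μ x`: `j - μ x ≤ A` is a subset sum of `S₀` (`μ x ≤ A + 1 ≤ j`), add `x`.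
Contradiction, so `A + 2 ≤ μ x`.
`comp_full`: PROOF.  `S₀` from `comp_max`, `r = S₀.card ≤ A`; if `S₀ ≠ S` then
`∑_S μ ≥ r + (S.card - r) (r + 2)` and for `0 ≤ r ≤ S.card - 1` this is `≥ 2 S.card`: the difference is
`r + (S.card - r)(r + 2) - 2 S.card = r (S.card - r - 1) ≥ 0`.  So `S₀ = S`.
`num_gap`: PROOF.  `S₀`, `A`, `p = S₀.card ≤ A` from `comp_max`; `r` is not a subset sum so
`r ≥ A + 1`.  If `S₀ = S`: `∑_S μ ≥ p = S.card`, and
`S.card + k + (k - 1)(S.card + 2) = k S.card + 3 k - 2 ≥ 2 (S.card + k) - 2`.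
If `S₀ ≠ S`, `p < S.card`: `∑_S μ + k + (k - 1)(r + 1) ≥ p + (S.card - p)(p + 2) + k + (k - 1)(p + 2)`,
which is `≥ 2 (S.card + k) - 2`: by the computation above `p + (S.card - p)(p + 2) ≥ 2 S.card`, and
`k + (k - 1)(p + 2) ≥ k + 2 (k - 1) ≥ 2 k - 2`.
-/

set_option autoImplicit false

namespace ZS44129

open Finset

theorem comp_max {ι : Type*} [DecidableEq ι] (S : Finset ι) (μ : ι → ℕ) (hμ : ∀ x ∈ S, 1 ≤ μ x) :
    ∃ S₀, S₀ ⊆ S ∧ (∀ j, j ≤ ∑ x ∈ S₀, μ x → ∃ U, U ⊆ S₀ ∧ ∑ x ∈ U, μ x = j) ∧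
      ∀ x ∈ S, x ∉ S₀ → ∑ x ∈ S₀, μ x + 2 ≤ μ x := by
  classical
  let P : Finset ι → Prop := fun S₀ => ∀ j, j ≤ ∑ x ∈ S₀, μ x → ∃ U, U ⊆ S₀ ∧ ∑ x ∈ U, μ x = j
  have hne : (S.powerset.filter P).Nonempty := by
    refine ⟨∅, ?_⟩
    rw [mem_filter]
    refine ⟨mem_powerset.2 (empty_subset _), fun j hj => ⟨∅, Subset.refl _, ?_⟩⟩
    rw [sum_empty] at hj ⊢
    omega
  obtain ⟨S₀, hS₀, hmax⟩ := exists_max_image _ card hne
  rw [mem_filter, mem_powerset] at hS₀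
  refine ⟨S₀, hS₀.1, hS₀.2, fun x hx hx0 => ?_⟩
  by_contra hcon
  have hP : P (insert x S₀) := by
    intro j hj
    rw [sum_insert hx0] at hj
    by_cases hjA : j ≤ ∑ x ∈ S₀, μ x
    · obtain ⟨U, hU, hs⟩ := hS₀.2 j hjA
      exact ⟨U, hU.trans (subset_insert _ _), hs⟩
    · obtain ⟨U, hU, hs⟩ := hS₀.2 (j - μ x) (by omega)
      refine ⟨insert x U, insert_subset_insert _ hU, ?_⟩
      rw [sum_insert (fun h => hx0 (hU h)), hs]
      omega
  have := hmax (insert x S₀) (mem_filter.2 ⟨mem_powerset.2 (insert_subset hx hS₀.1), hP⟩)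
  rw [card_insert_of_notMem hx0] at this
  omega

private theorem comp_aux {ι : Type*} [DecidableEq ι] (S S₀ : Finset ι) (μ : ι → ℕ)
    (hμ : ∀ x ∈ S, 1 ≤ μ x) (hs : S₀ ⊆ S) (h : ∀ x ∈ S, x ∉ S₀ → ∑ x ∈ S₀, μ x + 2 ≤ μ x) :
    S₀.card ≤ ∑ x ∈ S₀, μ x ∧ (S \ S₀).card + S₀.card = S.card ∧
      ∑ x ∈ S₀, μ x + (S \ S₀).card * (∑ x ∈ S₀, μ x + 2) ≤ ∑ x ∈ S, μ x := by
  refine ⟨?_, card_sdiff_add_card_eq_card hs, ?_⟩
  · rw [card_eq_sum_ones]
    exact sum_le_sum (fun x hx => hμ x (hs hx))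
  · rw [← sum_sdiff hs, add_comm]
    apply Nat.add_le_add_right
    rw [← smul_eq_mul]
    apply card_nsmul_le_sum
    intro x hx
    rw [mem_sdiff] at hx
    exact h x hx.1 hx.2

theorem comp_full {ι : Type*} [DecidableEq ι] (S : Finset ι) (μ : ι → ℕ) (hμ : ∀ x ∈ S, 1 ≤ μ x)
    (h : ∑ x ∈ S, μ x < 2 * S.card) :
    ∀ j, j ≤ ∑ x ∈ S, μ x → ∃ U, U ⊆ S ∧ ∑ x ∈ U, μ x = j := by
  obtain ⟨S₀, hs, hc, hx⟩ := comp_max S μ hμ
  obtain ⟨e1, e2, e3⟩ := comp_aux S S₀ μ hμ hs hx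
  have hq : (S \ S₀).card = 0 := by
    by_contra hq
    have h1 : 1 ≤ (S \ S₀).card := by omega
    have h2 : (S \ S₀).card * (S₀.card + 2) ≤ (S \ S₀).card * (∑ x ∈ S₀, μ x + 2) :=
      Nat.mul_le_mul_left _ (by omega)
    have h3 : (S \ S₀).card * (S₀.card + 2) = (S \ S₀).card * S₀.card + 2 * (S \ S₀).card := by ring
    have h4 : 1 * S₀.card ≤ (S \ S₀).card * S₀.card := Nat.mul_le_mul_right _ h1
    omega
  have hS : S₀ = S := by
    apply Subset.antisymm hs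
    rw [card_eq_zero, sdiff_eq_empty_iff_subset] at hq
    exact hq
  rw [← hS]
  exact hc

theorem num_gap {ι : Type*} [DecidableEq ι] (S : Finset ι) (μ : ι → ℕ) (hμ : ∀ x ∈ S, 1 ≤ μ x)
    (r k : ℕ) (hr : 1 ≤ r) (hk : 2 ≤ k) (h : ∀ U, U ⊆ S → ∑ x ∈ U, μ x ≠ r) :
    2 * (S.card + k) ≤ ∑ x ∈ S, μ x + k + (k - 1) * (r + 1) + 2 := by
  obtain ⟨S₀, hs, hc, hx⟩ := comp_max S μ hμ
  obtain ⟨e1, e2, e3⟩ := comp_aux S S₀ μ hμ hs hx
  have hr' : ∑ x ∈ S₀, μ x < r := by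
    by_contra hcon
    obtain ⟨U, hU, hU2⟩ := hc r (by omega)
    exact h U (hU.trans hs) hU2
  obtain ⟨k', rfl⟩ := Nat.exists_eq_add_of_le hk
  have hk' : 2 + k' - 1 = k' + 1 := by omega
  rw [hk']
  have h5 : (k' + 1) * (∑ x ∈ S₀, μ x + 2) ≤ (k' + 1) * (r + 1) :=
    Nat.mul_le_mul_left _ (by omega)
  have h6 : (k' + 1) * (∑ x ∈ S₀, μ x + 2) =
      k' * (∑ x ∈ S₀, μ x) + (∑ x ∈ S₀, μ x) + 2 * k' + 2 := by ring
  have h7 := Nat.zero_le (k' * (∑ x ∈ S₀, μ x))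
  by_cases hq : (S \ S₀).card = 0
  · rw [hq] at e3 e2
    omega
  · have h1 : 1 ≤ (S \ S₀).card := by omega
    have h2 : (S \ S₀).card * (S₀.card + 2) ≤ (S \ S₀).card * (∑ x ∈ S₀, μ x + 2) :=
      Nat.mul_le_mul_left _ (by omega)
    have h3 : (S \ S₀).card * (S₀.card + 2) = (S \ S₀).card * S₀.card + 2 * (S \ S₀).card := by ring
    have h4 : 1 * S₀.card ≤ (S \ S₀).card * S₀.card := Nat.mul_le_mul_right _ h1
    omega

/-- signed version: if `∑ |n x| < 2 * S.card` (all `n x ≠ 0`) every integer between minus the sum of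
the negative parts and the sum of the positive parts is a subset sum.
PROOF: for `z` in this interval let `j = z + ∑ (n x)⁻ ≤ ∑ |n x|`, `U` with `∑_U |n| = j`
(`comp_full`); `U' = (U ∩ {n > 0}) ∪ ({n < 0} \ U)` has `∑_{U'} n = ∑_U |n| - ∑ (n x)⁻ = z`. -/
theorem comp_signed {ι : Type*} [DecidableEq ι] (S : Finset ι) (n : ι → ℤ) (hn : ∀ x ∈ S, n x ≠ 0)
    (h : ∑ x ∈ S, |n x| < 2 * (S.card : ℤ)) (z : ℤ) (h1 : -∑ x ∈ S, max (-n x) 0 ≤ z)
    (h2 : z ≤ ∑ x ∈ S, max (n x) 0) : ∃ U, U ⊆ S ∧ ∑ x ∈ U, n x = z := by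
  classical
  have hsum : ∀ T : Finset ι, (((∑ x ∈ T, (n x).natAbs : ℕ)) : ℤ) = ∑ x ∈ T, |n x| := by
    intro T
    rw [Nat.cast_sum]
    exact sum_congr rfl (fun x _ => Int.natCast_natAbs (n x))
  have habs : ∀ T : Finset ι, ∑ x ∈ T, |n x| = ∑ x ∈ T, max (n x) 0 + ∑ x ∈ T, max (-n x) 0 := by
    intro T
    rw [← sum_add_distrib]
    apply sum_congr rfl
    intro x _
    rcases le_total 0 (n x) with h0 | h0
    · rw [abs_of_nonneg h0, max_eq_left h0, max_eq_right (by omega)]; ring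
    · rw [abs_of_nonpos h0, max_eq_right h0, max_eq_left (by omega)]; ring
  have hj0 : 0 ≤ z + ∑ x ∈ S, max (-n x) 0 := by linarith
  have hj1 : z + ∑ x ∈ S, max (-n x) 0 ≤ ∑ x ∈ S, |n x| := by rw [habs]; linarith
  have hf := comp_full S (fun x => (n x).natAbs)
    (fun x hx => Nat.one_le_iff_ne_zero.2 (Int.natAbs_ne_zero.2 (hn x hx)))
    (by
      have h3 := hsum S
      have h4 : (((∑ x ∈ S, (n x).natAbs : ℕ)) : ℤ) < ((2 * S.card : ℕ) : ℤ) := by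
        rw [h3]; push_cast; exact h
      exact_mod_cast h4)
    (z + ∑ x ∈ S, max (-n x) 0).toNat
    (by
      have h3 := hsum S
      have h4 : (((z + ∑ x ∈ S, max (-n x) 0).toNat : ℕ) : ℤ) ≤
          (((∑ x ∈ S, (n x).natAbs : ℕ)) : ℤ) := by
        rw [h3, Int.toNat_of_nonneg hj0]; exact hj1
      exact_mod_cast h4)
  obtain ⟨U, hU, hUs⟩ := hf
  have hU2 : ∑ x ∈ U, |n x| = z + ∑ x ∈ S, max (-n x) 0 := by
    rw [← hsum U, ← Int.toNat_of_nonneg hj0]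
    exact_mod_cast hUs
  refine ⟨U.filter (fun x => 0 < n x) ∪ (S \ U).filter (fun x => n x < 0), ?_, ?_⟩
  · apply union_subset ((filter_subset _ _).trans hU)
    exact (filter_subset _ _).trans sdiff_subset
  · rw [sum_union]
    · have a1 : ∑ x ∈ U.filter (fun x => 0 < n x), n x = ∑ x ∈ U, max (n x) 0 := by
        rw [sum_filter]
        apply sum_congr rfl
        intro x _
        split_ifs with h0
        · rw [max_eq_left h0.le]
        · rw [max_eq_right (by omega)]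
      have a2 : ∑ x ∈ (S \ U).filter (fun x => n x < 0), n x = -∑ x ∈ S \ U, max (-n x) 0 := by
        rw [sum_filter, ← sum_neg_distrib]
        apply sum_congr rfl
        intro x _
        split_ifs with h0
        · rw [max_eq_left (by omega)]; ring
        · rw [max_eq_right (by omega)]; ring
      have a3 : ∑ x ∈ S, max (-n x) 0 = ∑ x ∈ S \ U, max (-n x) 0 + ∑ x ∈ U, max (-n x) 0 :=
        (sum_sdiff hU).symm
      rw [a1, a2]
      rw [habs U, a3] at hU2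
      linarith
    · rw [disjoint_left]
      intro x hx hx'
      rw [mem_filter] at hx hx'
      exact (mem_sdiff.1 hx'.1).2 hx.1

end ZS44129
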