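import Pool.Agent.Work.MP_44129c_co.PL.Main
import Pool.Agent.Work.MP_44129c_co.G.Main

/-!
# MP_44129c_co/PL, Good (helper8): the first good pair, lifted (parts (1) and (4a))

`Rng m s`: `3 ≤ s` and `-3 ≤ t ≤ 1` (`m = 3 s + 1 + t`; `(s, m) ≠ (6, 20)`, and `t = 1` only if `5 ≤ s`), or
`23 ≤ s`, `2 ≤ t ≤ 0.1035 s`.
-/

set_option autoImplicit false

namespace ZS44129

open Finset

/-- the range of the pairs `(m, s)`. -/
def Rng (m s : ℕ) : Prop :=
  3 ≤ s ∧ ((3 * s ≤ m + 2 ∧ m ≤ 3 * s + 2 ∧ (m ≤ 3 * s ∨ 5 ≤ s) ∧ (m ≠ 20 ∨ s ≠ 6)) ∨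
    (23 ≤ s ∧ 3 * s + 3 ≤ m ∧ 10000 * m ≤ 31035 * s + 10000))

/-- `LP c u v z0 val`: `val` and `z0` are integer lifts of the colours `c u x` (`val (x, false)`),
`c v x` (`val (x, true)`), `c u v` (`z0`), such that every double star with centre edge `u v` has its
integer sum in `[1, m - 1]`. -/
structure LP {V : Type} [Fintype V] [DecidableEq V] {m : ℕ} (c : V → V → ZMod m) (u v : V)
    (z0 : ℤ) (val : V × Bool → ℤ) : Prop where
  ne : u ≠ v
  hu : ∀ x, x ≠ u → x ≠ v → (val (x, false) : ZMod m) = c u x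
  hv : ∀ x, x ≠ u → x ≠ v → (val (x, true) : ZMod m) = c v x
  h0 : (z0 : ZMod m) = c u v
  gap : ∀ C, Ch (XX u v) (m - 1) C → 1 ≤ z0 + ∑ o ∈ C, val o ∧ z0 + ∑ o ∈ C, val o ≤ m - 1
  own : m < 2 * ((XX u v).filter (fun x => val (x, true) ≠ val (x, false))).card

theorem zsf_affine {V : Type} [DecidableEq V] {m : ℕ} (c : V → V → ZMod m) (hz : ZSF m c)
    (g : (ZMod m)ˣ) (β : ZMod m) : ZSF m (fun x y => (g : ZMod m) * c x y - β) := by
  intro u v huv X Y h1 h2 h3 h4 h5 h6 h7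
  apply hz u v huv X Y h1 h2 h3 h4 h5 h6
  simp only [Finset.sum_sub_distrib, Finset.sum_const] at h7
  have h8 : (g : ZMod m) * c u v - β + (∑ x ∈ X, (g : ZMod m) * c u x - X.card • β) +
      (∑ y ∈ Y, (g : ZMod m) * c v y - Y.card • β) =
      (g : ZMod m) * (c u v + ∑ x ∈ X, c u x + ∑ y ∈ Y, c v y) - m • β := by
    have h9 : m • β = (X.card + Y.card + 1) • β := congrArg (fun k => k • β) h6.symm
    rw [h9, ← Finset.mul_sum, ← Finset.mul_sum, add_nsmul, add_nsmul, one_nsmul]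
    ring
  rw [h8] at h7
  have h9 : m • β = 0 := by rw [nsmul_eq_mul, ZMod.natCast_self, zero_mul]
  rw [h9, sub_zero] at h7
  have h10 := congrArg (fun z => ((g⁻¹ : (ZMod m)ˣ) : ZMod m) * z) h7
  simp only [mul_zero] at h10
  rw [← mul_assoc, ← Units.val_mul, inv_mul_cancel, Units.val_one, one_mul] at h10
  exact h10

theorem good_lift {V : Type} [Fintype V] [DecidableEq V] {m s : ℕ} [NeZero m] (hr : Rng m s)
    (hV : Fintype.card V = m + s) (c : V → V → ZMod m) (hsym : ∀ x y, c x y = c y x)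
    (hz : ZSF m c) :
    ∃ (g : (ZMod m)ˣ) (β : ZMod m) (u v : V) (z0 : ℤ) (val : V × Bool → ℤ),
      LP (fun x y => (g : ZMod m) * c x y - β) u v z0 val := by
  obtain ⟨h3, hr⟩ := hr
  obtain ⟨u, v, g, n, huv, hn, hW, hown⟩ := G.good_edge c hsym hz (s := s) (by omega) hV (by
    rcases hr with ⟨h1, h2, h4, h5⟩ | h
    · left
      refine ⟨h1, h2, h4, by omega, by omega, h5⟩
    · right; exact h)
  have hXX : (univ.erase u).erase v = XX u v := rfl
  rw [hXX] at hW hown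
  obtain ⟨β, z0, val, h1, h2, h4, h5⟩ := pair_lift_gen h3 hV c hz huv
    ((XX u v).filter (fun x => n x ≠ 0)) (filter_subset _ _) (by omega) g n
    (by intro x hx; exact (mem_filter.1 hx).2)
    (by
      intro x hx
      have := mem_XX.1 (mem_filter.1 hx).1
      exact hn x this.1 this.2)
    (by
      rw [sum_filter_of_ne (fun x _ h => by
        intro h0
        rw [h0, abs_zero] at h
        exact h rfl)]
      exact hW)
  refine ⟨g⁻¹, β, u, v, z0, val, huv, ?_, ?_, ?_, h4, ?_⟩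
  · intro x hx hx'
    exact (h1 x (mem_XX.2 ⟨hx, hx'⟩)).1
  · intro x hx hx'
    exact (h1 x (mem_XX.2 ⟨hx, hx'⟩)).2
  · exact h2
  · refine lt_of_lt_of_le hown (Nat.mul_le_mul_left 2 (card_le_card ?_))
    intro x hx
    rw [mem_filter]
    refine ⟨(mem_filter.1 hx).1, fun h => ?_⟩
    have h6 := h5 x hx
    rw [h, sub_self] at h6
    exact (mem_filter.1 hx).2 h6.symm

end ZS44129
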