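import Pool.Agent.Work.MP_44129c_co.PL.Lift
import Pool.Agent.Work.MP_44129c_co.PL.Comp

/-!
# MP_44129c_co/PL, Base (size M-L): the lift for the choices missing at most one own switch

`T = F.card`, `W = ∑ x ∈ F, |n x| ≥ T`, `R = X \ F`, `R.card = m + s - 2 - T`, `L = m - 1 - T ≥ 1`
(`T ≤ W ≤ m - 2`), `L + 2 ≤ R.card` (`3 ≤ s`).  `v (x, false) = a x`, `v (x, true) = b x`;
`P = ∑_F max (n x) 0`, `N = ∑_F max (-n x) 0`, `P + N = W`.

PROOF.
(0) For `σ` with `Ch R L σ` and `U ⊆ F` the set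
`C = σ ∪ {(x, true) | x ∈ U} ∪ {(x, false) | x ∈ F \ U}` is a choice of `m - 1` positions of `X`, so
`e + ∑_F a + ∑_σ v + ∑_U n ≠ 0` (`hzf`).  By `comp_signed` (`W ≤ m - 2 < 2 T`) the `∑_U n` are all the
integers of `[-N, P]`; `rep_int` (with `lo := N`, `hi := P`): `e + ∑_F a + ∑_σ v` has a representative in
`[N + 1, m - 1 - P]`, an interval of length `ρ = m - 2 - W`, `2 ρ < m` (`2 ρ ≤ 2 m - 4 - 2 T ≤ m - 5`).
`lift0` (`B = e + ∑_F a`) gives `β, f, k`.
(1) For `x ∈ F` the same with `F.erase x`, `L + 1`: `∑_{F.erase x} |n| ≤ m - 3 < 2 (T - 1)`, so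
`comp_signed` applies, and for `σ` with `Ch R (L + 1) σ` the element
`e + ∑_{F.erase x} a + ∑_σ v` has a representative in
`[N - max (-n x) 0 + 1, m - 1 - P + max (n x) 0]`, of length `ρ + |n x|`;
`ρ + |n x| + ρ < m` (`2 W - |n x| ≥ W + T - 1 ≥ 2 T - 1 ≥ m`).  `lift1` (same `β`, `f`) gives `k x` with
`(k x : ZMod m) = e + ∑_{F.erase x} a + (L + 1) * β`.
Put `val o = f o` for `o.1 ∈ R`; for `x ∈ F`: `val (x, false) = k - k x`,
`val (x, true) = k - k x + n x`; `z0 = k - ∑ x ∈ F, (k - k x)`.  Then `(val o : ZMod m) = v o - β`: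
for `x ∈ F`: `k - k x ≡ a x - β`; `z0 ≡ e + ∑_F a + L β - ∑_F (a x - β) = e + (m - 1) β = e - β`.
(2) Let `C` be a choice with `(miss F C).card ≤ 1`, `U = {x ∈ F | (x, true) ∈ C}`,
`σ = {o ∈ C | o.1 ∈ R}`.  If `miss F C = ∅`: `Ch R L σ`,
`z0 + ∑_C val = k + ∑_σ f + ∑_U n ∈ [N + 1 - N, m - 1 - P + P]`.  If `miss F C = {x}`:
`Ch R (L + 1) σ`, `U ⊆ F.erase x`, and
`z0 + ∑_C val = k - ∑_F (k - k y) + ∑_{F.erase x} (k - k y) + ∑_U n + ∑_σ f = k x + ∑_σ f + ∑_U n`,
between `N - max (-n x) 0 + 1 - (N - max (-n x) 0) = 1` and `m - 1`.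
-/

set_option autoImplicit false

namespace ZS44129

open Finset

private theorem sum_bounds_pb {V : Type} (F U : Finset V) (n : V → ℤ) (h : U ⊆ F) :
    -∑ x ∈ F, max (-n x) 0 ≤ ∑ x ∈ U, n x ∧ ∑ x ∈ U, n x ≤ ∑ x ∈ F, max (n x) 0 := by
  constructor
  · have h1 : ∑ x ∈ U, max (-n x) 0 ≤ ∑ x ∈ F, max (-n x) 0 :=
      Finset.sum_le_sum_of_subset_of_nonneg h (fun _ _ _ => le_max_right _ _)
    have h2 : ∑ x ∈ U, (-n x) ≤ ∑ x ∈ U, max (-n x) 0 :=
      Finset.sum_le_sum (fun _ _ => le_max_left _ _)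
    rw [Finset.sum_neg_distrib] at h2
    linarith
  · have h1 : ∑ x ∈ U, max (n x) 0 ≤ ∑ x ∈ F, max (n x) 0 :=
      Finset.sum_le_sum_of_subset_of_nonneg h (fun _ _ _ => le_max_right _ _)
    have h2 : ∑ x ∈ U, n x ≤ ∑ x ∈ U, max (n x) 0 :=
      Finset.sum_le_sum (fun _ _ => le_max_left _ _)
    linarith

private theorem abs_split_pb (x : ℤ) : |x| = max x 0 + max (-x) 0 := by
  rcases le_total 0 x with h | h
  · rw [abs_of_nonneg h, max_eq_left h, max_eq_right (by linarith)]; ring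
  · rw [abs_of_nonpos h, max_eq_right h, max_eq_left (by linarith)]; ring

private theorem comb_pb {V : Type} [DecidableEq V] {m : ℕ} (X F' R : Finset V)
    (hd : Disjoint R F') (hRX : R ⊆ X) (hFX : F' ⊆ X) (v : V × Bool → ZMod m) (n : V → ℤ)
    (hn : ∀ x ∈ F', v (x, true) - v (x, false) = (n x : ZMod m)) (L' : ℕ)
    (σ : Finset (V × Bool)) (hσ : Ch R L' σ) (U : Finset V) (hU : U ⊆ F') :
    ∃ C, Ch X (L' + F'.card) C ∧
      ∑ o ∈ C, v o = ∑ x ∈ F', v (x, false) + ∑ o ∈ σ, v o + ((∑ x ∈ U, n x : ℤ) : ZMod m) := by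
  classical
  set g : V → V × Bool := fun x => (x, decide (x ∈ U)) with hg
  have ginj : Function.Injective g := fun a b h => congrArg Prod.fst h
  have hdis : Disjoint σ (F'.image g) := by
    rw [Finset.disjoint_left]
    intro o ho ho'
    obtain ⟨x, hx, rfl⟩ := Finset.mem_image.1 ho'
    exact Finset.disjoint_left.1 hd (hσ.1 _ ho) hx
  refine ⟨σ ∪ F'.image g, ⟨?_, ?_, ?_⟩, ?_⟩
  · intro o ho
    rcases Finset.mem_union.1 ho with h | h
    · exact hRX (hσ.1 o h)
    · obtain ⟨x, hx, rfl⟩ := Finset.mem_image.1 h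
      exact hFX hx
  · intro o ho o' ho' he
    rcases Finset.mem_union.1 ho with h | h <;> rcases Finset.mem_union.1 ho' with h' | h'
    · exact hσ.2.1 o h o' h' he
    · obtain ⟨x, hx, rfl⟩ := Finset.mem_image.1 h'
      exfalso
      have := hσ.1 o h
      rw [he] at this
      exact Finset.disjoint_left.1 hd this hx
    · obtain ⟨x, hx, rfl⟩ := Finset.mem_image.1 h
      exfalso
      have := hσ.1 o' h'
      rw [← he] at this
      exact Finset.disjoint_left.1 hd this hx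
    · obtain ⟨x, hx, rfl⟩ := Finset.mem_image.1 h
      obtain ⟨x', hx', rfl⟩ := Finset.mem_image.1 h'
      have : x = x' := he
      rw [this]
  · rw [Finset.card_union_of_disjoint hdis, Finset.card_image_of_injective _ ginj, hσ.2.2]
  · rw [Finset.sum_union hdis, Finset.sum_image (fun a _ b _ h => ginj h)]
    have h1 : ∀ x ∈ F', v (g x) = v (x, false) + if x ∈ U then (n x : ZMod m) else 0 := by
      intro x hx
      by_cases hxU : x ∈ U
      · simp only [hg, hxU, decide_true, if_true]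
        rw [← hn x hx]; ring
      · simp [hg, hxU]
    rw [Finset.sum_congr rfl h1, Finset.sum_add_distrib, ← Finset.sum_filter,
      Finset.filter_mem_eq_inter, Finset.inter_eq_right.2 hU]
    push_cast
    ring

private theorem repr_pb {V : Type} [DecidableEq V] {m : ℕ} [NeZero m] (X F' R : Finset V)
    (hd : Disjoint R F') (hRX : R ⊆ X) (hFX : F' ⊆ X) (v : V × Bool → ZMod m) (e : ZMod m)
    (n : V → ℤ) (hn0 : ∀ x ∈ F', n x ≠ 0)
    (hn : ∀ x ∈ F', v (x, true) - v (x, false) = (n x : ZMod m)) (L' : ℕ)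
    (hL : L' + F'.card = m - 1) (N P : ℤ) (hN : ∑ x ∈ F', max (-n x) 0 = N)
    (hP : ∑ x ∈ F', max (n x) 0 = P) (hW : P + N + 1 ≤ m)
    (hW2 : P + N < 2 * (F'.card : ℤ))
    (hzf : ∀ C, Ch X (m - 1) C → e + ∑ o ∈ C, v o ≠ 0) :
    ∀ σ, Ch R L' σ → ∃ z : ℤ, N + 1 ≤ z ∧ z ≤ m - 1 - P ∧
      (z : ZMod m) = (e + ∑ x ∈ F', v (x, false)) + ∑ o ∈ σ, v o := by
  intro σ hσ
  have habs : ∑ x ∈ F', |n x| = P + N := by
    rw [← hN, ← hP, ← Finset.sum_add_distrib]
    exact Finset.sum_congr rfl (fun x _ => abs_split_pb _)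
  apply rep_int
  · rw [← hN]; exact Finset.sum_nonneg (fun _ _ => le_max_right _ _)
  · rw [← hP]; exact Finset.sum_nonneg (fun _ _ => le_max_right _ _)
  · linarith
  · intro y hy1 hy2
    obtain ⟨U, hU, hUs⟩ := comp_signed F' n hn0 (by rw [habs]; exact hW2) y
      (by rw [hN]; exact hy1) (by rw [hP]; exact hy2)
    obtain ⟨C, hC, hCs⟩ := comb_pb X F' R hd hRX hFX v n hn L' σ hσ U hU
    rw [hL] at hC
    have := hzf C hC
    rw [hCs, hUs] at this
    intro h0
    apply this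
    rw [← h0]; ring

private theorem decomp_pb {V : Type} [DecidableEq V] (F : Finset V) (C : Finset (V × Bool))
    (hC : ∀ o ∈ C, ∀ o' ∈ C, o.1 = o'.1 → o = o') (g : V → ℤ) (n : V → ℤ)
    (f : V × Bool → ℤ) :
    ∑ o ∈ C, (if o.1 ∈ F then g o.1 + (if o.2 then n o.1 else 0) else f o) =
      ∑ x ∈ F \ miss F C, g x + ∑ x ∈ (F \ miss F C).filter (fun x => (x, true) ∈ C), n x +
      ∑ o ∈ C.filter (fun o => o.1 ∉ F), f o ∧
    (C.filter (fun o => o.1 ∉ F)).card + (F \ miss F C).card = C.card := by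
  classical
  have hinj : Set.InjOn Prod.fst (C.filter (fun o => o.1 ∈ F) : Set (V × Bool)) := by
    intro a ha b hb hab
    rw [Finset.mem_coe, Finset.mem_filter] at ha hb
    exact hC a ha.1 b hb.1 hab
  have him : F \ miss F C = (C.filter (fun o => o.1 ∈ F)).image Prod.fst := by
    ext x
    unfold miss
    rw [Finset.mem_sdiff, Finset.mem_sdiff, Finset.mem_image, Finset.mem_image]
    constructor
    · rintro ⟨h1, h2⟩
      rw [not_and_not_right] at h2
      obtain ⟨o, ho, hox⟩ := h2 h1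
      exact ⟨o, Finset.mem_filter.2 ⟨ho, by rw [hox]; exact h1⟩, hox⟩
    · rintro ⟨o, ho, hox⟩
      rw [Finset.mem_filter] at ho
      refine ⟨by rw [← hox]; exact ho.2, ?_⟩
      rintro ⟨_, h3⟩
      exact h3 ⟨o, ho.1, hox⟩
  constructor
  · rw [← Finset.sum_filter_add_sum_filter_not C (fun o => o.1 ∈ F)]
    congr 1
    · have hs : ∑ x ∈ (F \ miss F C).filter (fun x => (x, true) ∈ C), n x =
          ∑ x ∈ F \ miss F C, if (x, true) ∈ C then n x else 0 := Finset.sum_filter _ _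
      rw [hs, him, Finset.sum_image hinj, Finset.sum_image hinj, ← Finset.sum_add_distrib]
      apply Finset.sum_congr rfl
      intro o ho
      rw [Finset.mem_filter] at ho
      rw [if_pos ho.2]
      congr 1
      obtain ⟨x, i⟩ := o
      cases i
      · have : (x, true) ∉ C := by
          intro h
          have := hC _ ho.1 _ h rfl
          simp at this
        simp [this]
      · have : (x, true) ∈ C := ho.1
        simp [this]
    · apply Finset.sum_congr rfl
      intro o ho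
      rw [Finset.mem_filter] at ho
      rw [if_neg ho.2]
  · rw [him, Finset.card_image_of_injOn hinj, add_comm]
    exact Finset.card_filter_add_card_filter_not _

theorem pl_base {V : Type} [DecidableEq V] {m s : ℕ} [NeZero m] (hs : 3 ≤ s) (X F : Finset V)
    (hX : X.card + 2 = m + s) (hFX : F ⊆ X) (hF : m + 1 ≤ 2 * F.card) (v : V × Bool → ZMod m)
    (e : ZMod m) (n : V → ℤ) (hn0 : ∀ x ∈ F, n x ≠ 0)
    (hn : ∀ x ∈ F, v (x, true) - v (x, false) = (n x : ZMod m))
    (hW : ∑ x ∈ F, |n x| + 2 ≤ m)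
    (hzf : ∀ C, Ch X (m - 1) C → e + ∑ o ∈ C, v o ≠ 0) :
    ∃ (β : ZMod m) (z0 : ℤ) (val : V × Bool → ℤ),
      (∀ o : V × Bool, o.1 ∈ X → (val o : ZMod m) = v o - β) ∧ (z0 : ZMod m) = e - β ∧
      (∀ x ∈ F, val (x, true) - val (x, false) = n x) ∧
      ∀ C, Ch X (m - 1) C → (miss F C).card ≤ 1 →
        1 ≤ z0 + ∑ o ∈ C, val o ∧ z0 + ∑ o ∈ C, val o ≤ m - 1 := by
  classical
  set R := X \ F with hR
  have hRd : Disjoint R F := Finset.sdiff_disjoint
  have hRX : R ⊆ X := Finset.sdiff_subset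
  have hRc : R.card + F.card = X.card := Finset.card_sdiff_add_card_eq_card hFX
  have one_le : ∀ x ∈ F, (1 : ℤ) ≤ |n x| := fun x hx => Int.one_le_abs (hn0 x hx)
  have hTW : (F.card : ℤ) ≤ ∑ x ∈ F, |n x| := by
    have := Finset.sum_le_sum one_le
    simpa using this
  have hTm : F.card + 2 ≤ m := by
    have h1 : (F.card : ℤ) + 2 ≤ m := by linarith
    exact_mod_cast h1
  obtain ⟨L, hL, hL1⟩ : ∃ L, L + F.card = m - 1 ∧ 1 ≤ L := ⟨m - 1 - F.card, by omega, by omega⟩
  obtain ⟨N, hN⟩ : ∃ N, ∑ x ∈ F, max (-n x) 0 = N := ⟨_, rfl⟩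
  obtain ⟨P, hP⟩ : ∃ P, ∑ x ∈ F, max (n x) 0 = P := ⟨_, rfl⟩
  have hPN : ∑ x ∈ F, |n x| = P + N := by
    rw [← hN, ← hP, ← Finset.sum_add_distrib]
    exact Finset.sum_congr rfl (fun x _ => abs_split_pb _)
  have hFz : (m : ℤ) + 1 ≤ 2 * F.card := by exact_mod_cast hF
  have rep0 := repr_pb X F R hRd hRX hFX v e n hn0 hn L hL N P hN hP (by linarith)
    (by linarith) hzf
  obtain ⟨β, f, k, hf, hfρ, hk, hkb⟩ := lift0 R v (e + ∑ x ∈ F, v (x, false)) L (N + 1)
    (m - 1 - P) hL1 (by omega) (by linarith) rep0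
  have step : ∀ x ∈ F, ∃ kx : ℤ,
      (kx : ZMod m) = (e + ∑ y ∈ F.erase x, v (y, false)) + ((L + 1 : ℕ) : ZMod m) * β ∧
      ∀ σ, Ch R (L + 1) σ → (N - max (-n x) 0) + 1 ≤ kx + ∑ o ∈ σ, f o ∧
        kx + ∑ o ∈ σ, f o ≤ m - 1 - (P - max (n x) 0) := by
    intro x hx
    have e1 : ∑ y ∈ F.erase x, max (-n y) 0 = N - max (-n x) 0 := by
      rw [← hN, ← Finset.add_sum_erase F _ hx]; ring
    have e2 : ∑ y ∈ F.erase x, max (n y) 0 = P - max (n x) 0 := by
      rw [← hP, ← Finset.add_sum_erase F _ hx]; ring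
    have hc : (F.erase x).card + 1 = F.card := Finset.card_erase_add_one hx
    have hcz : ((F.erase x).card : ℤ) + 1 = F.card := by exact_mod_cast hc
    have h1 := abs_split_pb (n x)
    have h2 := one_le x hx
    have h3 : ((F.erase x).card : ℤ) ≤ ∑ y ∈ F.erase x, |n y| := by
      have := Finset.sum_le_sum (s := F.erase x) (f := fun _ => (1 : ℤ)) (g := fun y => |n y|)
        (fun y hy => one_le y (Finset.mem_of_mem_erase hy))
      simpa using this
    have h4 : |n x| + ∑ y ∈ F.erase x, |n y| = P + N := by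
      rw [Finset.add_sum_erase F (fun y => |n y|) hx, hPN]
    have rep1 := repr_pb X (F.erase x) R
      (Finset.disjoint_of_subset_right (Finset.erase_subset _ _) hRd) hRX
      ((Finset.erase_subset _ _).trans hFX) v e n
      (fun y hy => hn0 y (Finset.mem_of_mem_erase hy))
      (fun y hy => hn y (Finset.mem_of_mem_erase hy)) (L + 1) (by omega)
      (N - max (-n x) 0) (P - max (n x) 0) e1 e2 (by linarith) (by linarith) hzf
    exact lift1 R v _ (L + 1) _ _ (m - 1 - P - (N + 1)) (by omega) (by linarith) β f hf hfρ rep1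
  choose! kk hkk using step
  have hdiff : ∀ x ∈ F, ((k - kk x : ℤ) : ZMod m) = v (x, false) - β := by
    intro x hx
    push_cast
    rw [hk, (hkk x hx).1, ← Finset.add_sum_erase F _ hx]
    push_cast
    ring
  refine ⟨β, k - ∑ x ∈ F, (k - kk x),
    fun o => if o.1 ∈ F then (k - kk o.1) + (if o.2 then n o.1 else 0) else f o, ?_, ?_, ?_, ?_⟩
  · intro o ho
    by_cases hoF : o.1 ∈ F
    · simp only [hoF, if_true]
      have h1 := hdiff o.1 hoF
      have h2 := hn o.1 hoF
      obtain ⟨x, i⟩ := o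
      cases i
      · simp only [Bool.false_eq_true, if_false, add_zero]
        exact h1
      · simp only [if_true]
        rw [Int.cast_add, h1, ← h2]
        ring
    · simp only [hoF, if_false]
      exact hf o (Finset.mem_sdiff.2 ⟨ho, hoF⟩)
  · rw [Int.cast_sub, Int.cast_sum, Finset.sum_congr rfl hdiff, Finset.sum_sub_distrib, hk,
      Finset.sum_const, nsmul_eq_mul]
    have hm1 : ((m - 1 : ℕ) : ZMod m) = -1 := by
      have h1 : ((m - 1 : ℕ) : ZMod m) + 1 = ((m - 1 + 1 : ℕ) : ZMod m) := by push_cast; ring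
      have h2 : m - 1 + 1 = m := by omega
      rw [h2, ZMod.natCast_self] at h1
      exact eq_neg_of_add_eq_zero_left h1
    rw [← hL] at hm1
    push_cast at hm1
    have h3 : e + ∑ x ∈ F, v (x, false) + (L : ZMod m) * β -
        (∑ x ∈ F, v (x, false) - (F.card : ZMod m) * β) = e + ((L : ZMod m) + F.card) * β := by
      ring
    rw [h3, hm1]
    ring
  · intro x hx
    simp [hx]
  · intro C hC hmiss
    obtain ⟨hd1, hd2⟩ := decomp_pb F C hC.2.1 (fun x => k - kk x) n f
    beta_reduce at hd1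
    rw [hd1]
    have hσ : ∀ L', (C.filter (fun o => o.1 ∉ F)).card = L' →
        Ch R L' (C.filter (fun o => o.1 ∉ F)) := by
      intro L' hL'
      refine ⟨?_, ?_, hL'⟩
      · intro o ho
        rw [Finset.mem_filter] at ho
        exact Finset.mem_sdiff.2 ⟨hC.1 o ho.1, ho.2⟩
      · intro o ho o' ho' he
        exact hC.2.1 o (Finset.mem_filter.1 ho).1 o' (Finset.mem_filter.1 ho').1 he
    rw [hC.2.2] at hd2
    rcases Nat.le_one_iff_eq_zero_or_eq_one.1 hmiss with h0 | h1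
    · rw [Finset.card_eq_zero] at h0
      rw [h0, Finset.sdiff_empty] at hd2 ⊢
      have h2 := hkb _ (hσ L (by omega))
      have h3 := sum_bounds_pb F (F.filter (fun x => (x, true) ∈ C)) n (Finset.filter_subset _ _)
      rw [hN, hP] at h3
      constructor
      · linarith [h2.1, h3.1]
      · linarith [h2.2, h3.2]
    · obtain ⟨x, hx⟩ := Finset.card_eq_one.1 h1
      have hxF : x ∈ F := by
        have : x ∈ miss F C := by rw [hx]; exact Finset.mem_singleton_self x
        unfold miss at this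
        exact (Finset.mem_sdiff.1 this).1
      rw [hx, Finset.sdiff_singleton_eq_erase] at hd2 ⊢
      have hc : (F.erase x).card + 1 = F.card := Finset.card_erase_add_one hxF
      have h2 := (hkk x hxF).2 _ (hσ (L + 1) (by omega))
      have h3 := sum_bounds_pb (F.erase x) ((F.erase x).filter (fun x => (x, true) ∈ C)) n
        (Finset.filter_subset _ _)
      have e1 : ∑ y ∈ F.erase x, max (-n y) 0 = N - max (-n x) 0 := by
        rw [← hN, ← Finset.add_sum_erase F _ hxF]; ring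
      have e2 : ∑ y ∈ F.erase x, max (n y) 0 = P - max (n x) 0 := by
        rw [← hP, ← Finset.add_sum_erase F _ hxF]; ring
      rw [e1, e2] at h3
      have h4 : ∑ y ∈ F, (k - kk y) = (k - kk x) + ∑ y ∈ F.erase x, (k - kk y) :=
        (Finset.add_sum_erase F _ hxF).symm
      rw [h4]
      constructor
      · linarith [h2.1, h3.1]
      · linarith [h2.2, h3.2]

end ZS44129
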