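import Pool.Agent.Work.MP_44129c_co.PL.Defs

/-!
# MP_44129c_co/PL, Conn (size S-M): exchanges connect all choices

`conn`: PROOF.  Induction on `(σ' \ σ).card`.  If it is `0` then `σ' ⊆ σ`, and as the cards agree
`σ = σ'`.  Otherwise take `o' ∈ σ' \ σ`.  If some `o ∈ σ` has `o.1 = o'.1` then `o ∉ σ'` (`o ≠ o'`, and
`σ'` has distinct positions); otherwise take any `o ∈ σ \ σ'` (it exists because the cards agree).  In
both cases `τ = insert o' (σ.erase o)` is a choice, `D τ = D σ`, and
`(σ' \ τ).card < (σ' \ σ).card`.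
`ch_exists`: PROOF.  `L` positions of `X` outside `Y`, all with side `false`.
-/

set_option autoImplicit false

namespace ZS44129

open Finset

private theorem conn_swap {V : Type} [DecidableEq V] {R : Finset V} {L : ℕ}
    {σ : Finset (V × Bool)} (hσ : Ch R L σ) {o o' : V × Bool} (ho : o ∈ σ) (ho' : o' ∉ σ)
    (hR : o'.1 ∈ R) (hd : ∀ b ∈ σ.erase o, b.1 ≠ o'.1) : Ch R L (insert o' (σ.erase o)) := by
  refine ⟨?_, ?_, ?_⟩
  · intro a ha
    rcases Finset.mem_insert.1 ha with rfl | ha
    · exact hR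
    · exact hσ.1 a (Finset.mem_of_mem_erase ha)
  · intro a ha b hb hab
    rcases Finset.mem_insert.1 ha with rfl | ha2
    · rcases Finset.mem_insert.1 hb with rfl | hb2
      · rfl
      · exact absurd hab.symm (hd b hb2)
    · rcases Finset.mem_insert.1 hb with rfl | hb2
      · exact absurd hab (hd a ha2)
      · exact hσ.2.1 a (Finset.mem_of_mem_erase ha2) b (Finset.mem_of_mem_erase hb2) hab
  · rw [Finset.card_insert_of_notMem (fun h => ho' (Finset.mem_of_mem_erase h)),
      Finset.card_erase_of_mem ho]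
    have h1 := Finset.card_pos.2 ⟨o, ho⟩
    have h2 := hσ.2.2
    omega

theorem conn {V : Type} [DecidableEq V] {α : Type*} (R : Finset V) (L : ℕ)
    (D : Finset (V × Bool) → α)
    (h : ∀ σ, Ch R L σ → ∀ o ∈ σ, ∀ o', o' ∉ σ → Ch R L (insert o' (σ.erase o)) →
      D (insert o' (σ.erase o)) = D σ) :
    ∀ σ σ', Ch R L σ → Ch R L σ' → D σ = D σ' := by
  have key : ∀ n : ℕ, ∀ σ σ', Ch R L σ → Ch R L σ' → (σ' \ σ).card = n → D σ = D σ' := by
    intro n
    induction n using Nat.strong_induction_on with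
    | _ n ih =>
      intro σ σ' hσ hσ' hn
      by_cases h0 : σ' \ σ = ∅
      · have h1 : σ' ⊆ σ := Finset.sdiff_eq_empty_iff_subset.1 h0
        have h2 : σ' = σ := by
          apply Finset.eq_of_subset_of_card_le h1
          rw [hσ.2.2, hσ'.2.2]
        rw [h2]
      · obtain ⟨o', ho'⟩ := Finset.nonempty_iff_ne_empty.2 h0
        obtain ⟨ho1, ho2⟩ := Finset.mem_sdiff.1 ho'
        have hex : ∃ o ∈ σ, o ∉ σ' ∧ Ch R L (insert o' (σ.erase o)) := by
          by_cases hc : ∃ o ∈ σ, o.1 = o'.1
          · obtain ⟨o, ho, hoo⟩ := hc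
            refine ⟨o, ho, ?_, ?_⟩
            · intro h3
              have h4 := hσ'.2.1 o h3 o' ho1 hoo
              rw [h4] at ho
              exact ho2 ho
            · apply conn_swap hσ ho ho2 (hσ'.1 o' ho1)
              intro b hb hbo
              have h5 := hσ.2.1 b (Finset.mem_of_mem_erase hb) o ho (hbo.trans hoo.symm)
              exact Finset.ne_of_mem_erase hb h5
          · push Not at hc
            have h3 : (σ \ σ').Nonempty := by
              rw [← Finset.card_pos]
              have h4 := Finset.card_sdiff_add_card_inter σ σ'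
              have h5 := Finset.card_sdiff_add_card_inter σ' σ
              rw [Finset.inter_comm] at h5
              have h6 := Finset.card_pos.2 ⟨o', ho'⟩
              rw [hσ.2.2] at h4
              rw [hσ'.2.2] at h5
              omega
            obtain ⟨o, ho⟩ := h3
            obtain ⟨ho3, ho4⟩ := Finset.mem_sdiff.1 ho
            refine ⟨o, ho3, ho4, conn_swap hσ ho3 ho2 (hσ'.1 o' ho1) ?_⟩
            intro b hb
            exact hc b (Finset.mem_of_mem_erase hb)
        obtain ⟨o, ho, hoσ', hτ⟩ := hex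
        have h1 := h σ hσ o ho o' ho2 hτ
        rw [← h1]
        refine ih _ ?_ _ _ hτ hσ' rfl
        rw [← hn]
        apply Finset.card_lt_card
        rw [Finset.ssubset_iff_of_subset]
        · refine ⟨o', ho', ?_⟩
          intro h3
          exact (Finset.mem_sdiff.1 h3).2 (Finset.mem_insert_self _ _)
        · intro x hx
          obtain ⟨hx1, hx2⟩ := Finset.mem_sdiff.1 hx
          refine Finset.mem_sdiff.2 ⟨hx1, fun hxσ => ?_⟩
          apply hx2
          apply Finset.mem_insert_of_mem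
          apply Finset.mem_erase.2 ⟨?_, hxσ⟩
          rintro rfl
          exact hoσ' hx1
  intro σ σ' hσ hσ'
  exact key _ σ σ' hσ hσ' rfl

theorem ch_exists {V : Type} [DecidableEq V] (X Y : Finset V) (L : ℕ)
    (h : L + Y.card ≤ X.card) :
    ∃ C, Ch X L C ∧ ∀ o ∈ C, o.1 ∉ Y := by
  have h1 : L ≤ (X \ Y).card := by
    have := Finset.le_card_sdiff Y X
    omega
  obtain ⟨T, hT, hc⟩ := Finset.exists_subset_card_eq h1
  refine ⟨T.image (fun x => (x, false)), ⟨?_, ?_, ?_⟩, ?_⟩
  · intro o ho
    obtain ⟨x, hx, rfl⟩ := Finset.mem_image.1 ho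
    exact (Finset.mem_sdiff.1 (hT hx)).1
  · intro o ho o' ho' hoo
    obtain ⟨x, hx, rfl⟩ := Finset.mem_image.1 ho
    obtain ⟨x', hx', rfl⟩ := Finset.mem_image.1 ho'
    simp only at hoo
    rw [hoo]
  · rw [Finset.card_image_of_injective _ (fun a b hab => (Prod.mk.inj hab).1), hc]
  · intro o ho
    obtain ⟨x, hx, rfl⟩ := Finset.mem_image.1 ho
    exact (Finset.mem_sdiff.1 (hT hx)).2

theorem ch_insert {V : Type} [DecidableEq V] {X : Finset V} {L : ℕ} {C : Finset (V × Bool)}
    (h : Ch X L C) {o : V × Bool} (ho : o.1 ∈ X) (hC : ∀ o' ∈ C, o'.1 ≠ o.1) :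
    Ch X (L + 1) (insert o C) ∧ o ∉ C := by
  have hoC : o ∉ C := fun h1 => hC o h1 rfl
  refine ⟨⟨?_, ?_, ?_⟩, hoC⟩
  · intro a ha
    rcases Finset.mem_insert.1 ha with rfl | ha
    · exact ho
    · exact h.1 a ha
  · intro a ha b hb hab
    rcases Finset.mem_insert.1 ha with rfl | ha2
    · rcases Finset.mem_insert.1 hb with rfl | hb2
      · rfl
      · exact absurd hab.symm (hC b hb2)
    · rcases Finset.mem_insert.1 hb with rfl | hb2
      · exact absurd hab (hC a ha2)
      · exact h.2.1 a ha2 b hb2 hab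
  · rw [Finset.card_insert_of_notMem hoC, h.2.2]

end ZS44129
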