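import Mathlib
import Pool.Agent.Work.MP_44129c_co.Defs
import Pool.Agent.Work.MP_44129c_co.P1.Defs

/-!
# MP_44129c_co/PL, Defs (FIXED, do not change)

Part (4a) of the full answer: the integer lift of a whole pair (paper: helper43,
`/team-store/44129c_helper43_6.md`).  An option is `(x, i) : V × Bool` (position `x`, side `i`:
`false` = the vertex `u`, `true` = the vertex `v`); a choice is a set of `L` options with distinct
positions in `X`.
-/

set_option autoImplicit false

namespace ZS44129

open Finset

/-- `C` is a choice of `L` positions of `X`, each with a side. -/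
def Ch {V : Type} (X : Finset V) (L : ℕ) (C : Finset (V × Bool)) : Prop :=
  (∀ o ∈ C, o.1 ∈ X) ∧ (∀ o ∈ C, ∀ o' ∈ C, o.1 = o'.1 → o = o') ∧ C.card = L

/-- the positions of `F` not used by `C`. -/
def miss {V : Type} [DecidableEq V] (F : Finset V) (C : Finset (V × Bool)) : Finset V :=
  F \ C.image Prod.fst

end ZS44129
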