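import Pool.Agent.Work.MP_44129c_co.PL.Defs
import Pool.Agent.Work.MP_44129c_co.PL.Comp

/-!
# MP_44129c_co/PL, Ind (size M-L): the induction on the number of missing own switches

Everything is about integers.  `Z C = z0 + ∑ o ∈ C, val o`, `T = F.card`, `W = ∑ x ∈ F, |n x|`.

PROOF.  Claim(k): all choices `C` with `(miss F C).card ≤ k` satisfy `1 ≤ Z C ≤ m - 1`.  Claim(1) is
`hbase`.  Let `k ≥ 2`, Claim(k - 1) true and `(miss F C).card = k`; `F₁ = miss F C`.
UPPER BOUND (lemma `ind_step`; the lower bound is the upper bound for `val' = -val`, `n' = -n`,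
`z0' = m - z0`, `Z' = m - Z`).  Suppose `Z C ≥ m`; `Z C ≠ m` (`hnz`), so `Z C ≥ m + 1`.  Moving the
elements of `F \ F₁` to their larger side (side `true` if `n x > 0`, `false` if `n x < 0`) only
increases `Z C`; so assume they are on their larger side, and write `Z C = m + r`, `r ≥ 1`.
Let `Y = {o ∈ C | o.1 ∉ F}`; `Y.card = m - 1 - (T - k) ≥ k + 1` (`T ≤ W ≤ m - 2`).  For `x ∈ F₁` let
`M x = max (val (x, false)) (val (x, true))`; for `o ∈ Y`: exchanging `o` for `x` on its larger side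
gives a choice with `k - 1` missing, so `m + r - val o + M x ≤ m - 1`: `val o - M x ≥ r + 1`.   (1)
(a) Write `F₁ = {x₁, …, x_k}`, take distinct `o₁, …, o_k ∈ Y`.  `C₁ = C - o_k + x_k` (larger side) has
`Z C₁ ≤ m - 1`; `C₂ = C - o₁ - … - o_k + x₁ + … + x_k` with ALL elements of `F` on their smaller side
has no missing element, `Z C₂ ≥ 1`.  `Z C₁ - Z C₂ = ∑_{i < k} (val o_i - M x_i) + ∑_{x ∈ F} |n x|
≥ (k - 1)(r + 1) + W` by (1).  So `W + (k - 1)(r + 1) ≤ m - 2`.                              (2)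
(b) `r` is not a sum `∑_{x ∈ U} |n x|` with `U ⊆ F \ F₁`: moving the `x ∈ U` to their smaller side
gives a choice with `Z = m`, contradiction to `hnz`.  `num_gap` (`S = F \ F₁`, `μ x = |n x|`,
`S.card + k = T`): `2 T ≤ ∑_{F \ F₁} |n| + k + (k - 1)(r + 1) + 2 ≤ W + (k - 1)(r + 1) + 2`
(`∑_{F₁} |n| ≥ k`), so with (2) `2 T ≤ m`: contradiction to `m + 1 ≤ 2 T`.
-/

set_option autoImplicit false

namespace ZS44129

open Finset

private theorem ch_rep {V : Type} [DecidableEq V] {X : Finset V} {L : ℕ}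
    {C : Finset (V × Bool)} (hC : Ch X L C) :
    ∃ (Q : Finset V) (σ : V → Bool), Q ⊆ X ∧ Q.card = L ∧ C = Q.image (fun x => (x, σ x)) := by
  classical
  obtain ⟨h1, h2, h3⟩ := hC
  have hσ : ∀ x b, (x, b) ∈ C → decide ((x, true) ∈ C) = b := by
    intro x b hb
    cases b with
    | true => simpa using hb
    | false =>
      rw [decide_eq_false_iff_not]
      intro ht
      have := h2 _ ht _ hb rfl
      simp at this
  refine ⟨C.image Prod.fst, fun x => decide ((x, true) ∈ C), ?_, ?_, ?_⟩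
  · intro x hx
    obtain ⟨o, ho, rfl⟩ := mem_image.1 hx
    exact h1 o ho
  · rw [card_image_of_injOn, h3]
    intro o ho o' ho' he
    exact h2 o ho o' ho' he
  · ext ⟨x, b⟩
    constructor
    · intro hb
      exact mem_image.2 ⟨x, mem_image.2 ⟨(x, b), hb, rfl⟩, by simp [hσ x b hb]⟩
    · intro hb
      obtain ⟨y, hy, he⟩ := mem_image.1 hb
      obtain ⟨⟨z, c⟩, hz, hzy⟩ := mem_image.1 hy
      simp only at hzy
      subst hzy
      simp only [Prod.mk.injEq] at he
      obtain ⟨rfl, rfl⟩ := he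
      rw [hσ z c hz]
      exact hz

private theorem ch_mk {V : Type} [DecidableEq V] {X Q : Finset V} {L : ℕ} (σ : V → Bool)
    (hQ : Q ⊆ X) (hL : Q.card = L) : Ch X L (Q.image (fun x => (x, σ x))) := by
  refine ⟨?_, ?_, ?_⟩
  · intro o ho
    obtain ⟨x, hx, rfl⟩ := mem_image.1 ho
    exact hQ hx
  · intro o ho o' ho' he
    obtain ⟨x, hx, rfl⟩ := mem_image.1 ho
    obtain ⟨y, hy, rfl⟩ := mem_image.1 ho'
    simp only at he
    rw [he]
  · rw [card_image_of_injective, hL]
    intro x y hxy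
    exact congrArg Prod.fst hxy

private theorem sum_mk {V : Type} [DecidableEq V] (Q : Finset V) (σ : V → Bool)
    (val : V × Bool → ℤ) :
    ∑ o ∈ Q.image (fun x => (x, σ x)), val o = ∑ x ∈ Q, val (x, σ x) := by
  rw [sum_image]
  intro x _ y _ hxy
  exact congrArg Prod.fst hxy

private theorem miss_mk {V : Type} [DecidableEq V] (F Q : Finset V) (σ : V → Bool) :
    miss F (Q.image (fun x => (x, σ x))) = F \ Q := by
  unfold miss
  rw [image_image]
  congr 1
  ext x
  simp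

theorem ind_step {V : Type} [DecidableEq V] {m k : ℕ} (hk : 2 ≤ k) (X F : Finset V)
    (hFX : F ⊆ X) (hF : m + 1 ≤ 2 * F.card) (n : V → ℤ) (hn0 : ∀ x ∈ F, n x ≠ 0)
    (hW : ∑ x ∈ F, |n x| + 2 ≤ m) (z0 : ℤ) (val : V × Bool → ℤ)
    (hval : ∀ x ∈ F, val (x, true) - val (x, false) = n x)
    (hnz : ∀ C, Ch X (m - 1) C → z0 + ∑ o ∈ C, val o ≠ m)
    (hIH : ∀ C, Ch X (m - 1) C → (miss F C).card < k →
      1 ≤ z0 + ∑ o ∈ C, val o ∧ z0 + ∑ o ∈ C, val o ≤ m - 1)
    (C : Finset (V × Bool)) (hC : Ch X (m - 1) C) (hCk : (miss F C).card = k) :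
    z0 + ∑ o ∈ C, val o ≤ m - 1 := by
  classical
  obtain ⟨Q, σ, hQX, hQc, rfl⟩ := ch_rep hC
  rw [miss_mk] at hCk
  rw [sum_mk]
  by_contra hcon
  -- reformulation of the hypotheses
  have hnz' : ∀ (Q : Finset V) (τ : V → Bool), Q ⊆ X → Q.card = m - 1 →
      z0 + ∑ x ∈ Q, val (x, τ x) ≠ m := by
    intro Q τ hQ hc
    have := hnz _ (ch_mk τ hQ hc)
    rwa [sum_mk] at this
  have hIH' : ∀ (Q : Finset V) (τ : V → Bool), Q ⊆ X → Q.card = m - 1 → (F \ Q).card < k →
      1 ≤ z0 + ∑ x ∈ Q, val (x, τ x) ∧ z0 + ∑ x ∈ Q, val (x, τ x) ≤ m - 1 := by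
    intro Q τ hQ hc hm
    have := hIH _ (ch_mk τ hQ hc) (by rw [miss_mk]; exact hm)
    rwa [sum_mk] at this
  -- larger and smaller side
  let hi : V → Bool := fun x => decide (0 < n x)
  let lo : V → Bool := fun x => ! decide (0 < n x)
  have hhl : ∀ x ∈ F, val (x, hi x) - val (x, lo x) = |n x| := by
    intro x hx
    have h1 := hval x hx
    by_cases h0 : 0 < n x
    · simp only [hi, lo, h0, decide_true, Bool.not_true]
      rw [h1, abs_of_pos h0]
    · simp only [hi, lo, h0, decide_false, Bool.not_false]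
      rw [abs_of_nonpos (by omega), ← h1]
      ring
  have hhi : ∀ x ∈ F, ∀ b, val (x, b) ≤ val (x, hi x) := by
    intro x hx b
    have h1 := hval x hx
    by_cases h0 : 0 < n x
    · simp only [hi, h0, decide_true]
      cases b <;> omega
    · simp only [hi, h0, decide_false]
      cases b <;> omega
  have hn1 : ∀ x ∈ F, 1 ≤ |n x| := fun x hx => Int.one_le_abs (hn0 x hx)
  let τ : V → Bool := fun x => if x ∈ F then hi x else σ x
  have hτF : ∀ x ∈ F, τ x = hi x := fun x hx => by simp only [τ, hx, if_true]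
  have hZ0 : ∑ x ∈ Q, val (x, σ x) ≤ ∑ x ∈ Q, val (x, τ x) := by
    refine sum_le_sum (fun x _ => ?_)
    by_cases hx : x ∈ F
    · rw [hτF x hx]
      exact hhi x hx _
    · simp only [τ, hx, if_false]
      exact le_refl _
  have hZne := hnz' Q τ hQX hQc
  obtain ⟨r, hr⟩ : ∃ r : ℤ, z0 + ∑ x ∈ Q, val (x, τ x) = m + r :=
    ⟨z0 + ∑ x ∈ Q, val (x, τ x) - m, by ring⟩
  have hr1 : 1 ≤ r := by omega
  set F₁ : Finset V := F \ Q with hF₁
  set S : Finset V := F ∩ Q with hS
  set Y : Finset V := Q \ F with hY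
  have hFs : ∀ f : V → ℤ, ∑ x ∈ F, f x = ∑ x ∈ S, f x + ∑ x ∈ F₁, f x := by
    intro f
    rw [hS, hF₁, sum_inter_add_sum_sdiff]
  have hQs : ∀ f : V → ℤ, ∑ x ∈ Q, f x = ∑ x ∈ S, f x + ∑ x ∈ Y, f x := by
    intro f
    rw [hS, hY, inter_comm, sum_inter_add_sum_sdiff]
  have hFc : F.card = S.card + k := by
    rw [← hCk, hS, hF₁, add_comm, card_sdiff_add_card_inter]
  have hQc' : Q.card = S.card + Y.card := by
    rw [hS, hY, inter_comm, add_comm, card_sdiff_add_card_inter]
  have hTW : (F.card : ℤ) ≤ ∑ x ∈ F, |n x| := by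
    have := card_nsmul_le_sum F (fun x => |n x|) 1 hn1
    simpa using this
  have hYc : k ≤ Y.card := by omega
  -- (1)
  have h1 : ∀ x ∈ F₁, ∀ y ∈ Y, val (x, hi x) + (r + 1) ≤ val (y, τ y) := by
    intro x hx y hy
    obtain ⟨hxF, hxQ⟩ := mem_sdiff.1 hx
    obtain ⟨hyQ, hyF⟩ := mem_sdiff.1 hy
    have hxn : x ∉ Q.erase y := fun h => hxQ (mem_of_mem_erase h)
    have hsub : insert x (Q.erase y) ⊆ X := by
      intro z hz
      rcases mem_insert.1 hz with rfl | hz
      · exact hFX hxF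
      · exact hQX (mem_of_mem_erase hz)
    have hcard : (insert x (Q.erase y)).card = m - 1 := by
      rw [card_insert_of_notMem hxn, card_erase_add_one hyQ, hQc]
    have hmiss : (F \ insert x (Q.erase y)).card < k := by
      rw [← hCk]
      apply card_lt_card
      rw [ssubset_iff_of_subset]
      · exact ⟨x, hx, by simp⟩
      · intro z hz
        obtain ⟨hzF, hzn⟩ := mem_sdiff.1 hz
        refine mem_sdiff.2 ⟨hzF, fun hzQ => hzn (mem_insert_of_mem (mem_erase.2 ⟨?_, hzQ⟩))⟩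
        rintro rfl
        exact hyF hzF
    have h2 := (hIH' _ τ hsub hcard hmiss).2
    rw [sum_insert hxn, hτF x hxF] at h2
    have h3 := add_sum_erase Q (fun z => val (z, τ z)) hyQ
    omega
  -- (2)
  obtain ⟨Y0, hY0, hY0c⟩ := exists_subset_card_eq hYc
  have hF1ne : F₁.Nonempty := by rw [← card_pos]; omega
  obtain ⟨xs, hxs, hxm⟩ := exists_max_image F₁ (fun x => val (x, hi x)) hF1ne
  have h2a : (k : ℤ) * (val (xs, hi xs) + (r + 1)) ≤ ∑ y ∈ Y0, val (y, τ y) := by
    have := card_nsmul_le_sum Y0 (fun y => val (y, τ y)) (val (xs, hi xs) + (r + 1))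
      (fun y hy => h1 xs hxs y (hY0 hy))
    rw [hY0c, nsmul_eq_mul] at this
    exact this
  have h2b : ∑ x ∈ F₁, val (x, hi x) ≤ (k : ℤ) * val (xs, hi xs) := by
    have := sum_le_card_nsmul F₁ (fun x => val (x, hi x)) (val (xs, hi xs)) hxm
    rw [hCk, nsmul_eq_mul] at this
    exact this
  have hdis : Disjoint F (Y \ Y0) := by
    rw [disjoint_left]
    intro x hx hx'
    exact (mem_sdiff.1 (mem_sdiff.1 hx').1).2 hx
  have h2c := (hIH' (F ∪ (Y \ Y0)) (fun x => if x ∈ F then lo x else σ x) (by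
      refine union_subset hFX ?_
      exact (sdiff_subset.trans sdiff_subset).trans hQX) (by
      rw [card_union_of_disjoint hdis, card_sdiff_of_subset hY0]
      omega) (by
      have : F \ (F ∪ (Y \ Y0)) = ∅ := by
        rw [sdiff_eq_empty_iff_subset]
        exact subset_union_left
      rw [this, card_empty]
      omega)).1
  rw [sum_union hdis] at h2c
  have e1 : ∑ x ∈ F, val (x, if x ∈ F then lo x else σ x) = ∑ x ∈ F, val (x, lo x) := by
    refine sum_congr rfl (fun x hx => ?_)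
    simp only [hx, if_true]
  have e2 : ∑ x ∈ Y \ Y0, val (x, if x ∈ F then lo x else σ x) =
      ∑ x ∈ Y \ Y0, val (x, τ x) := by
    refine sum_congr rfl (fun x hx => ?_)
    have hxF : x ∉ F := (mem_sdiff.1 (mem_sdiff.1 hx).1).2
    simp only [τ, hxF, if_false]
  rw [e1, e2] at h2c
  have e3 : ∑ x ∈ Y \ Y0, val (x, τ x) + ∑ x ∈ Y0, val (x, τ x) = ∑ x ∈ Y, val (x, τ x) :=
    sum_sdiff hY0
  have e4 : ∑ x ∈ F, val (x, hi x) - ∑ x ∈ F, val (x, lo x) = ∑ x ∈ F, |n x| := by
    rw [← sum_sub_distrib]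
    exact sum_congr rfl hhl
  have e5 : ∑ x ∈ S, val (x, τ x) = ∑ x ∈ S, val (x, hi x) := by
    refine sum_congr rfl (fun x hx => ?_)
    rw [hτF x (mem_inter.1 hx).1]
  have e6 := hQs (fun x => val (x, τ x))
  have e7 := hFs (fun x => val (x, hi x))
  have h2 : ∑ x ∈ F, |n x| + ((k : ℤ) - 1) * (r + 1) + 2 ≤ m := by
    have e8 : (k : ℤ) * (val (xs, hi xs) + (r + 1)) =
        (k : ℤ) * val (xs, hi xs) + ((k : ℤ) - 1) * (r + 1) + (r + 1) := by ring
    rw [e8] at h2a
    linarith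
  -- (3)
  have h3 := num_gap S (fun x => (n x).natAbs)
    (fun x hx => Nat.one_le_iff_ne_zero.2 (Int.natAbs_ne_zero.2 (hn0 x (mem_inter.1 hx).1)))
    r.toNat k (by omega) hk (by
      intro U hU hUs
      have hUs' : ∑ x ∈ U, |n x| = r := by
        have h4 : (((∑ x ∈ U, (n x).natAbs : ℕ)) : ℤ) = ((r.toNat : ℕ) : ℤ) := by rw [hUs]
        rw [Nat.cast_sum, Int.toNat_of_nonneg (by omega)] at h4
        rw [← h4]
        exact sum_congr rfl (fun x _ => (Int.natCast_natAbs (n x)).symm)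
      have hUQ : U ⊆ Q := fun x hx => (mem_inter.1 (hU hx)).2
      have hUF : U ⊆ F := fun x hx => (mem_inter.1 (hU hx)).1
      apply hnz' Q (fun x => if x ∈ U then lo x else τ x) hQX hQc
      have a1 := sum_sdiff (f := fun x => val (x, if x ∈ U then lo x else τ x)) hUQ
      have a2 := sum_sdiff (f := fun x => val (x, τ x)) hUQ
      have a3 : ∑ x ∈ Q \ U, val (x, if x ∈ U then lo x else τ x) =
          ∑ x ∈ Q \ U, val (x, τ x) := by
        refine sum_congr rfl (fun x hx => ?_)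
        simp only [(mem_sdiff.1 hx).2, if_false]
      have a4 : ∑ x ∈ U, val (x, τ x) - ∑ x ∈ U, val (x, if x ∈ U then lo x else τ x) =
          ∑ x ∈ U, |n x| := by
        rw [← sum_sub_distrib]
        refine sum_congr rfl (fun x hx => ?_)
        rw [hτF x (hUF hx), ← hhl x (hUF hx)]
        simp only [hx, if_true]
      linarith)
  have h5 : ((∑ x ∈ S, (n x).natAbs : ℕ) : ℤ) = ∑ x ∈ S, |n x| := by
    rw [Nat.cast_sum]
    exact sum_congr rfl (fun x _ => Int.natCast_natAbs (n x))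
  have h6 : (k : ℤ) ≤ ∑ x ∈ F₁, |n x| := by
    have := card_nsmul_le_sum F₁ (fun x => |n x|) 1 (fun x hx => hn1 x (mem_sdiff.1 hx).1)
    rw [hCk] at this
    simpa using this
  have h7 := hFs (fun x => |n x|)
  have h8 : ((2 * (S.card + k) : ℕ) : ℤ) ≤
      ((∑ x ∈ S, (n x).natAbs + k + (k - 1) * (r.toNat + 1) + 2 : ℕ) : ℤ) := by
    exact_mod_cast h3
  push_cast [Nat.cast_sub (show 1 ≤ k by omega)] at h8
  rw [Int.toNat_of_nonneg (by omega)] at h8
  have h5' : ∑ x ∈ S, |n x| = ∑ x ∈ S, (((n x).natAbs : ℕ) : ℤ) := by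
    rw [← h5, Nat.cast_sum]
  have hF' : (m : ℤ) + 1 ≤ 2 * (F.card : ℤ) := by exact_mod_cast hF
  have hFc' : (F.card : ℤ) = S.card + k := by exact_mod_cast hFc
  linarith

theorem pl_ind {V : Type} [DecidableEq V] {m : ℕ} (X F : Finset V)
    (hFX : F ⊆ X) (hF : m + 1 ≤ 2 * F.card) (n : V → ℤ) (hn0 : ∀ x ∈ F, n x ≠ 0)
    (hW : ∑ x ∈ F, |n x| + 2 ≤ m) (z0 : ℤ) (val : V × Bool → ℤ)
    (hval : ∀ x ∈ F, val (x, true) - val (x, false) = n x)
    (hnz : ∀ C, Ch X (m - 1) C → ¬ (m : ℤ) ∣ z0 + ∑ o ∈ C, val o)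
    (hbase : ∀ C, Ch X (m - 1) C → (miss F C).card ≤ 1 →
      1 ≤ z0 + ∑ o ∈ C, val o ∧ z0 + ∑ o ∈ C, val o ≤ m - 1) :
    ∀ C, Ch X (m - 1) C → 1 ≤ z0 + ∑ o ∈ C, val o ∧ z0 + ∑ o ∈ C, val o ≤ m - 1 := by
  have main : ∀ k, ∀ C, Ch X (m - 1) C → (miss F C).card = k →
      1 ≤ z0 + ∑ o ∈ C, val o ∧ z0 + ∑ o ∈ C, val o ≤ m - 1 := by
    intro k
    induction k using Nat.strong_induction_on with
    | _ k ih =>
      intro C hC hCk
      by_cases hk : k ≤ 1
      · exact hbase C hC (by omega)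
      · have hIH : ∀ C, Ch X (m - 1) C → (miss F C).card < k →
            1 ≤ z0 + ∑ o ∈ C, val o ∧ z0 + ∑ o ∈ C, val o ≤ m - 1 :=
          fun C' hC' hlt => ih _ hlt C' hC' rfl
        refine ⟨?_, ?_⟩
        · have h1 := ind_step (by omega) X F hFX hF (fun x => - n x)
            (fun x hx => neg_ne_zero.2 (hn0 x hx)) (by simpa using hW) (m - z0)
            (fun o => - val o) (fun x hx => by rw [← hval x hx]; ring)
            (fun C' hC' he => by
              rw [sum_neg_distrib] at he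
              apply hnz C' hC'
              have : z0 + ∑ o ∈ C', val o = 0 := by linarith
              rw [this]
              exact dvd_zero _)
            (fun C' hC' hlt => by
              have h2 := hIH C' hC' hlt
              rw [sum_neg_distrib]
              constructor <;> linarith [h2.1, h2.2]) C hC hCk
          rw [sum_neg_distrib] at h1
          linarith
        · exact ind_step (by omega) X F hFX hF n hn0 hW z0 val hval
            (fun C' hC' he => hnz C' hC' (by rw [he])) hIH C hC hCk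
  exact fun C hC => main _ C hC rfl

end ZS44129
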