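import Pool.Agent.Work.MP_44129c_co.PL.Conn

/-!
# MP_44129c_co/PL, Lift (size M): integer lifts of sums with representatives in a short interval

`lift1`: PROOF.  For a choice `σ` let `z σ` be the given representative in `[lo, hi]` (classical choice),
`D σ = z σ - ∑ o ∈ σ, f o`.  For an exchange `σ → τ = insert o' (σ.erase o)`:
`z τ - z σ ≡ v o' - v o ≡ f o' - f o` mod `m`, `|z τ - z σ| ≤ hi - lo`, `|f o' - f o| ≤ ρ`, so the
difference of the two integers is a multiple of `m` of absolute value `≤ hi - lo + ρ < m`, hence `0`: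
`D τ = D σ`.  By `conn` (and `ch_exists` with `Y = ∅`) `D` is constant, `= k`.
`(k : ZMod m) = B + ∑_σ v - ∑_σ f = B + L • β`.
`lift0`: PROOF.  `ρ = hi - lo ≥ 0`.  Fix `x₀ ∈ R`, `β = v (x₀, false)`.  For options `o, o'` with
positions in `R` (not necessarily different) take a choice `σ₀` of `L - 1` positions of `R` avoiding
`x₀, o.1, o'.1` (`ch_exists`, `Y = {x₀, o.1, o'.1}`, `L - 1 + 3 ≤ R.card`).  The three choices
`insert (x₀, false) σ₀`, `insert o σ₀`, `insert o' σ₀` have representatives `z₀, z₁, z₂ ∈ [lo, hi]`,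
`z₁ - z₀ ≡ v o - β`, `z₂ - z₀ ≡ v o' - β`.  So `v o - β` has a representative in `[-ρ, ρ]`, it is unique
because `2 ρ < m`; call it `f o` (`f = 0` outside `R`).  Then `f o = z₁ - z₀`, `f o' = z₂ - z₀` and
`|f o - f o'| = |z₁ - z₂| ≤ ρ`.  Now `lift1` with this `f`, `ρ`.
-/

set_option autoImplicit false

namespace ZS44129

open Finset

private theorem lf_eq {m : ℕ} {a b : ℤ} (h : (a : ZMod m) = (b : ZMod m)) {ρ : ℤ}
    (hab : |a - b| ≤ ρ) (hρ : ρ < m) : a = b := by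
  have h1 : (m : ℤ) ∣ a - b := by
    rw [← ZMod.intCast_zmod_eq_zero_iff_dvd]
    push_cast
    rw [h, sub_self]
  have h2 := Int.eq_zero_of_abs_lt_dvd h1 (lt_of_le_of_lt hab hρ)
  linarith

theorem lift1 {V : Type} [DecidableEq V] {m : ℕ} [NeZero m] (R : Finset V)
    (v : V × Bool → ZMod m) (B : ZMod m) (L : ℕ) (lo hi ρ : ℤ) (hL : L ≤ R.card)
    (hlen : hi - lo + ρ < m) (β : ZMod m) (f : V × Bool → ℤ)
    (hf : ∀ o : V × Bool, o.1 ∈ R → (f o : ZMod m) = v o - β)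
    (hρ : ∀ o o' : V × Bool, o.1 ∈ R → o'.1 ∈ R → |f o - f o'| ≤ ρ)
    (hrep : ∀ σ, Ch R L σ → ∃ z : ℤ, lo ≤ z ∧ z ≤ hi ∧ (z : ZMod m) = B + ∑ o ∈ σ, v o) :
    ∃ k : ℤ, (k : ZMod m) = B + (L : ZMod m) * β ∧
      ∀ σ, Ch R L σ → lo ≤ k + ∑ o ∈ σ, f o ∧ k + ∑ o ∈ σ, f o ≤ hi := by
  classical
  have hz : ∀ σ : Finset (V × Bool), ∃ z : ℤ, Ch R L σ →
      (lo ≤ z ∧ z ≤ hi ∧ (z : ZMod m) = B + ∑ o ∈ σ, v o) := by
    intro σ
    by_cases h : Ch R L σ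
    · obtain ⟨z, h1⟩ := hrep σ h
      exact ⟨z, fun _ => h1⟩
    · exact ⟨0, fun h' => absurd h' h⟩
  choose z hz using hz
  have hD := conn R L (fun σ => z σ - ∑ o ∈ σ, f o) (by
    intro σ hσ o ho o' ho' hτ
    obtain ⟨a1, a2, a3⟩ := hz σ hσ
    obtain ⟨b1, b2, b3⟩ := hz _ hτ
    have hoR : o.1 ∈ R := hσ.1 o ho
    have hoR' : o'.1 ∈ R := hτ.1 o' (Finset.mem_insert_self _ _)
    have hn : o' ∉ σ.erase o := fun h => ho' (Finset.mem_of_mem_erase h)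
    have s1 : ∑ x ∈ insert o' (σ.erase o), f x = f o' + ∑ x ∈ σ.erase o, f x :=
      Finset.sum_insert hn
    have s2 : ∑ x ∈ σ, f x = f o + ∑ x ∈ σ.erase o, f x :=
      (Finset.add_sum_erase σ f ho).symm
    have s3 : ∑ x ∈ insert o' (σ.erase o), v x = v o' + ∑ x ∈ σ.erase o, v x :=
      Finset.sum_insert hn
    have s4 : ∑ x ∈ σ, v x = v o + ∑ x ∈ σ.erase o, v x :=
      (Finset.add_sum_erase σ v ho).symm
    have hcast : ((z (insert o' (σ.erase o)) - z σ : ℤ) : ZMod m) = ((f o' - f o : ℤ) : ZMod m) := by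
      push_cast
      rw [a3, b3, s3, s4, hf o hoR, hf o' hoR']
      ring
    have h1 := hρ o' o hoR' hoR
    have h2 : |(z (insert o' (σ.erase o)) - z σ) - (f o' - f o)| ≤ hi - lo + ρ := by
      refine (abs_sub _ _).trans (add_le_add ?_ h1)
      rw [abs_le]
      constructor <;> linarith
    have h3 := lf_eq hcast h2 hlen
    rw [s1, s2]
    linarith)
  obtain ⟨σ0, hσ0, -⟩ := ch_exists R ∅ L (by rw [Finset.card_empty]; omega)
  refine ⟨z σ0 - ∑ o ∈ σ0, f o, ?_, ?_⟩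
  · obtain ⟨-, -, a3⟩ := hz σ0 hσ0
    have h1 : ∑ o ∈ σ0, (f o : ZMod m) = ∑ o ∈ σ0, v o - (L : ZMod m) * β := by
      rw [Finset.sum_congr rfl (fun o ho => hf o (hσ0.1 o ho)), Finset.sum_sub_distrib,
        Finset.sum_const, hσ0.2.2, nsmul_eq_mul]
    push_cast
    rw [a3, h1]
    ring
  · intro σ hσ
    obtain ⟨a1, a2, -⟩ := hz σ hσ
    have h1 := hD σ σ0 hσ hσ0
    constructor <;> linarith

theorem lift0 {V : Type} [DecidableEq V] {m : ℕ} [NeZero m] (R : Finset V)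
    (v : V × Bool → ZMod m) (B : ZMod m) (L : ℕ) (lo hi : ℤ) (hL1 : 1 ≤ L) (hL : L + 2 ≤ R.card)
    (hlen : 2 * (hi - lo) < m)
    (hrep : ∀ σ, Ch R L σ → ∃ z : ℤ, lo ≤ z ∧ z ≤ hi ∧ (z : ZMod m) = B + ∑ o ∈ σ, v o) :
    ∃ (β : ZMod m) (f : V × Bool → ℤ) (k : ℤ),
      (∀ o : V × Bool, o.1 ∈ R → (f o : ZMod m) = v o - β) ∧
      (∀ o o' : V × Bool, o.1 ∈ R → o'.1 ∈ R → |f o - f o'| ≤ hi - lo) ∧
      (k : ZMod m) = B + (L : ZMod m) * β ∧
      ∀ σ, Ch R L σ → lo ≤ k + ∑ o ∈ σ, f o ∧ k + ∑ o ∈ σ, f o ≤ hi := by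
  classical
  obtain ⟨x₀, hx₀⟩ : R.Nonempty := by
    rw [← Finset.card_pos]
    omega
  obtain ⟨β, hβ⟩ : ∃ β : ZMod m, β = v (x₀, false) := ⟨_, rfl⟩
  have key : ∀ o o' : V × Bool, o.1 ∈ R → o'.1 ∈ R → ∃ a b : ℤ, (a : ZMod m) = v o - β ∧
      (b : ZMod m) = v o' - β ∧ |a| ≤ hi - lo ∧ |b| ≤ hi - lo ∧ |a - b| ≤ hi - lo := by
    intro o o' ho ho'
    have hY : ({x₀, o.1, o'.1} : Finset V).card ≤ 3 := Finset.card_le_three
    obtain ⟨C, hC, hCY⟩ := ch_exists R {x₀, o.1, o'.1} (L - 1) (by omega)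
    have hLL : L - 1 + 1 = L := by omega
    have main : ∀ p : V × Bool, p.1 ∈ R → p.1 ∈ ({x₀, o.1, o'.1} : Finset V) →
        ∃ z : ℤ, lo ≤ z ∧ z ≤ hi ∧ (z : ZMod m) = B + (v p + ∑ o ∈ C, v o) := by
      intro p hp hpY
      obtain ⟨h1, h2⟩ := ch_insert hC hp (fun q hq h => hCY q hq (h ▸ hpY))
      rw [hLL] at h1
      obtain ⟨z, z1, z2, z3⟩ := hrep _ h1
      rw [Finset.sum_insert h2] at z3
      exact ⟨z, z1, z2, z3⟩
    obtain ⟨z0, p1, p2, p3⟩ := main (x₀, false) hx₀ (by simp)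
    obtain ⟨z1, q1, q2, q3⟩ := main o ho (by simp)
    obtain ⟨z2, r1, r2, r3⟩ := main o' ho' (by simp)
    refine ⟨z1 - z0, z2 - z0, ?_, ?_, ?_, ?_, ?_⟩
    · push_cast
      rw [q3, p3, hβ]
      ring
    · push_cast
      rw [r3, p3, hβ]
      ring
    · rw [abs_le]; constructor <;> linarith
    · rw [abs_le]; constructor <;> linarith
    · rw [abs_le]; constructor <;> linarith
  have hex : ∀ o : V × Bool, ∃ a : ℤ, o.1 ∈ R → ((a : ZMod m) = v o - β ∧ |a| ≤ hi - lo) := by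
    intro o
    by_cases h : o.1 ∈ R
    · obtain ⟨a, -, h1, -, h2, -, -⟩ := key o o h h
      exact ⟨a, fun _ => ⟨h1, h2⟩⟩
    · exact ⟨0, fun h' => absurd h' h⟩
  choose f hf using hex
  have huniq : ∀ o : V × Bool, o.1 ∈ R → ∀ a : ℤ, (a : ZMod m) = v o - β → |a| ≤ hi - lo →
      a = f o := by
    intro o ho a ha hab
    obtain ⟨h1, h2⟩ := hf o ho
    apply lf_eq (ρ := 2 * (hi - lo)) (by rw [ha, h1]) _ hlen
    have := abs_sub a (f o)
    linarith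
  have hff : ∀ o o' : V × Bool, o.1 ∈ R → o'.1 ∈ R → |f o - f o'| ≤ hi - lo := by
    intro o o' ho ho'
    obtain ⟨a, b, ha, hb, ha', hb', hab⟩ := key o o' ho ho'
    rw [← huniq o ho a ha ha', ← huniq o' ho' b hb hb']
    exact hab
  obtain ⟨k, hk1, hk2⟩ := lift1 R v B L lo hi (hi - lo) (by omega) (by linarith) β f
    (fun o ho => (hf o ho).1) hff hrep
  exact ⟨β, f, k, fun o ho => (hf o ho).1, hff, hk1, hk2⟩

/-- an interval of at most `m - 1` residues avoiding `0`.  PROOF: the representative `z` of `B` in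
`[lo + 1, lo + m]`; if `z > m - 1 - hi` then `m ∈ [z - lo, z + hi]`, `m = z + y` with
`-lo ≤ y ≤ hi`, so `B + y = 0`. -/
theorem rep_int {m : ℕ} [NeZero m] (B : ZMod m) (lo hi : ℤ) (h0 : 0 ≤ lo) (h1 : 0 ≤ hi)
    (h2 : lo + hi + 1 ≤ m) (h : ∀ y : ℤ, -lo ≤ y → y ≤ hi → B + (y : ZMod m) ≠ 0) :
    ∃ z : ℤ, lo + 1 ≤ z ∧ z ≤ m - 1 - hi ∧ (z : ZMod m) = B := by
  have hm : (0 : ℤ) < m := by
    have := NeZero.pos m
    exact_mod_cast this
  obtain ⟨t, ht⟩ : ∃ t : ℤ, t = ((B.val : ℤ) - (lo + 1)) % m := ⟨_, rfl⟩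
  have ht0 : 0 ≤ t := by rw [ht]; exact Int.emod_nonneg _ hm.ne'
  have ht1 : t < m := by rw [ht]; exact Int.emod_lt_of_pos _ hm
  have hcast : ((lo + 1 + t : ℤ) : ZMod m) = B := by
    have h3 : ((t : ℤ) : ZMod m) = ((B.val : ℤ) - (lo + 1) : ℤ) := by
      rw [ht, ZMod.intCast_mod]
    push_cast at h3 ⊢
    rw [h3, ZMod.natCast_zmod_val]
    ring
  refine ⟨lo + 1 + t, by linarith, ?_, hcast⟩
  by_contra hcon
  rw [not_le] at hcon
  apply h (m - (lo + 1 + t)) (by linarith) (by linarith)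
  push_cast at hcast ⊢
  rw [← hcast, ZMod.natCast_self]
  ring

end ZS44129
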