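import Pool.Agent.Work.MP_44129c_co.PL.Base
import Pool.Agent.Work.MP_44129c_co.PL.Ind
import Pool.Agent.Work.MP_44129c_co.F.CubeMain

/-!
# MP_44129c_co/PL, Main (helper8): the integer lift of a pair (Lemma PL)
-/

set_option autoImplicit false

namespace ZS44129

open Finset

theorem pl {V : Type} [DecidableEq V] {m s : ℕ} [NeZero m] (hs : 3 ≤ s) (X F : Finset V)
    (hX : X.card + 2 = m + s) (hFX : F ⊆ X) (hF : m + 1 ≤ 2 * F.card) (v : V × Bool → ZMod m)
    (e : ZMod m) (n : V → ℤ) (hn0 : ∀ x ∈ F, n x ≠ 0)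
    (hn : ∀ x ∈ F, v (x, true) - v (x, false) = (n x : ZMod m))
    (hW : ∑ x ∈ F, |n x| + 2 ≤ m)
    (hzf : ∀ C, Ch X (m - 1) C → e + ∑ o ∈ C, v o ≠ 0) :
    ∃ (β : ZMod m) (z0 : ℤ) (val : V × Bool → ℤ),
      (∀ o : V × Bool, o.1 ∈ X → (val o : ZMod m) = v o - β) ∧ (z0 : ZMod m) = e - β ∧
      (∀ x ∈ F, val (x, true) - val (x, false) = n x) ∧
      ∀ C, Ch X (m - 1) C → 1 ≤ z0 + ∑ o ∈ C, val o ∧ z0 + ∑ o ∈ C, val o ≤ m - 1 := by
  obtain ⟨β, z0, val, h1, h2, h3, h4⟩ := pl_base hs X F hX hFX hF v e n hn0 hn hW hzf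
  refine ⟨β, z0, val, h1, h2, h3, pl_ind X F hFX hF n hn0 hW z0 val h3 ?_ h4⟩
  intro C hC hdvd
  apply hzf C hC
  have h5 : ((z0 + ∑ o ∈ C, val o : ℤ) : ZMod m) = 0 := by
    rw [ZMod.intCast_zmod_eq_zero_iff_dvd]
    exact hdvd
  push_cast at h5
  rw [h2, Finset.sum_congr rfl (fun o ho => h1 o (hC.1 o ho)), Finset.sum_sub_distrib,
    Finset.sum_const, hC.2.2] at h5
  have hm : 1 ≤ m := Nat.one_le_iff_ne_zero.2 (NeZero.ne m)
  have h6 : (m - 1) • β = - β := by
    have h7 : m • β = 0 := by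
      rw [nsmul_eq_mul, ZMod.natCast_self, zero_mul]
    have h8 : m • β = (m - 1) • β + β := by
      have h9 : m • β = (m - 1 + 1) • β := congrArg (fun k => k • β) (Nat.sub_add_cancel hm).symm
      rw [h9, add_nsmul, one_nsmul]
    rw [h8] at h7
    exact eq_neg_of_add_eq_zero_left h7
  rw [h6] at h5
  rw [← h5]
  ring

/-- the double stars of the pair `w, y` as choices. -/
theorem zsf_choice {V : Type} [Fintype V] [DecidableEq V] {m : ℕ} (hm : 1 ≤ m)
    (c : V → V → ZMod m) (hz : ZSF m c) {w y : V} (hwy : w ≠ y) (C : Finset (V × Bool))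
    (hC : Ch (XX w y) (m - 1) C) :
    c w y + ∑ o ∈ C, (if o.2 then c y o.1 else c w o.1) ≠ 0 := by
  obtain ⟨h1, h2, h3⟩ := hC
  have hinj : ∀ b : Bool, Set.InjOn Prod.fst
      ((C.filter (fun o => o.2 = b) : Finset (V × Bool)) : Set (V × Bool)) := by
    intro b o ho o' ho' h
    simp only [coe_filter, Set.mem_ofPred_eq] at ho ho'
    exact h2 o ho.1 o' ho'.1 h
  have h := hz w y hwy ((C.filter (fun o => o.2 = false)).image Prod.fst)
    ((C.filter (fun o => o.2 = true)).image Prod.fst) ?_ ?_ ?_ ?_ ?_ ?_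
  · rw [sum_image (hinj false), sum_image (hinj true), add_assoc] at h
    convert h using 2
    rw [← sum_filter_add_sum_filter_not C (fun o => o.2 = false)]
    congr 1
    · apply sum_congr rfl
      intro o ho
      rw [mem_filter] at ho
      simp [ho.2]
    · apply sum_congr
      · apply filter_congr
        intro o _
        simp
      · intro o ho
        rw [mem_filter] at ho
        simp [ho.2]
  · rw [disjoint_left]
    intro x hx hx'
    rw [mem_image] at hx hx'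
    obtain ⟨o, ho, rfl⟩ := hx
    obtain ⟨o', ho', he⟩ := hx'
    rw [mem_filter] at ho ho'
    have := h2 o' ho'.1 o ho.1 he
    rw [this] at ho'
    rw [ho.2] at ho'
    exact absurd ho'.2 (by simp)
  all_goals try
    (intro hx
     rw [mem_image] at hx
     obtain ⟨o, ho, he⟩ := hx
     rw [mem_filter] at ho
     have := h1 o ho.1
     rw [mem_XX] at this
     first
       | exact this.1 he
       | exact this.2 he)
  rw [card_image_of_injOn (hinj false), card_image_of_injOn (hinj true)]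
  have h4 : (C.filter (fun o => o.2 = false)).card + (C.filter (fun o => o.2 = true)).card =
      C.card := by
    rw [← card_filter_add_card_filter_not (s := C) (fun o => o.2 = false)]
    congr 2
    apply filter_congr
    intro o _
    simp
  omega

/-- the lift of a pair, for a colouring (`F`: positions with own switches, `g` the unit scale). -/
theorem pair_lift_gen {V : Type} [Fintype V] [DecidableEq V] {m s : ℕ} [NeZero m] (hs : 3 ≤ s)
    (hV : Fintype.card V = m + s) (c : V → V → ZMod m) (hz : ZSF m c) {w y : V} (hwy : w ≠ y)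
    (F : Finset V) (hFX : F ⊆ XX w y) (hF : m + 1 ≤ 2 * F.card) (g : (ZMod m)ˣ) (n : V → ℤ)
    (hn0 : ∀ x ∈ F, n x ≠ 0) (hn : ∀ x ∈ F, c y x = c w x + n x • (g : ZMod m))
    (hW : ∑ x ∈ F, |n x| + 2 ≤ m) :
    ∃ (β : ZMod m) (z0 : ℤ) (val : V × Bool → ℤ),
      (∀ x ∈ XX w y, (val (x, false) : ZMod m) = (g⁻¹ : (ZMod m)ˣ) * c w x - β ∧
        (val (x, true) : ZMod m) = (g⁻¹ : (ZMod m)ˣ) * c y x - β) ∧
      (z0 : ZMod m) = (g⁻¹ : (ZMod m)ˣ) * c w y - β ∧
      (∀ C, Ch (XX w y) (m - 1) C → 1 ≤ z0 + ∑ o ∈ C, val o ∧ z0 + ∑ o ∈ C, val o ≤ m - 1) ∧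
      (∀ x ∈ F, val (x, true) - val (x, false) = n x) := by
  have hm : 1 ≤ m := Nat.one_le_iff_ne_zero.2 (NeZero.ne m)
  have hX := card_XX hwy
  have hgg : ((g⁻¹ : (ZMod m)ˣ) : ZMod m) * (g : ZMod m) = 1 := by
    rw [← Units.val_mul, inv_mul_cancel, Units.val_one]
  obtain ⟨β, z0, val, h1, h2, h3, h4⟩ := pl hs (XX w y) F (by omega) hFX hF
    (fun o => ((g⁻¹ : (ZMod m)ˣ) : ZMod m) * (if o.2 then c y o.1 else c w o.1))
    (((g⁻¹ : (ZMod m)ˣ) : ZMod m) * c w y) n hn0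
    (by
      intro x hx
      have h5 := hn x hx
      simp only [if_true, Bool.false_eq_true, if_false]
      rw [← mul_sub, h5, zsmul_eq_mul]
      calc ((g⁻¹ : (ZMod m)ˣ) : ZMod m) * (c w x + (n x : ZMod m) * (g : ZMod m) - c w x)
          = (n x : ZMod m) * (((g⁻¹ : (ZMod m)ˣ) : ZMod m) * (g : ZMod m)) := by ring
        _ = n x := by rw [hgg, mul_one]) hW
    (by
      intro C hC h0
      apply zsf_choice hm c hz hwy C hC
      rw [← mul_sum, ← mul_add] at h0
      have h6 := congrArg (fun z => (g : ZMod m) * z) h0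
      simp only [mul_zero] at h6
      rw [← mul_assoc, mul_comm (g : ZMod m), hgg, one_mul] at h6
      exact h6)
  refine ⟨β, z0, val, ?_, h2, h4, h3⟩
  intro x hx
  constructor
  · have := h1 (x, false) hx
    simpa using this
  · have := h1 (x, true) hx
    simpa using this

/-- the lift of a pair, from an aperiodic cube (P1/Thm1). -/
theorem pair_lift {V : Type} [Fintype V] [DecidableEq V] {m s : ℕ} [NeZero m] (hs : 3 ≤ s)
    (hV : Fintype.card V = m + s) (c : V → V → ZMod m) (hz : ZSF m c) {w y : V} (hwy : w ≠ y)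
    (F : Finset V) (hFX : F ⊆ XX w y) (hF : m + 1 ≤ 2 * F.card)
    (hd : ∀ x ∈ F, dd c w y x ≠ 0) (hap : Aper (cube (dd c w y) F)) :
    ∃ (g : (ZMod m)ˣ) (n : V → ℤ) (β : ZMod m) (z0 : ℤ) (val : V × Bool → ℤ),
      (∀ x ∈ XX w y, (val (x, false) : ZMod m) = (g⁻¹ : (ZMod m)ˣ) * c w x - β ∧
        (val (x, true) : ZMod m) = (g⁻¹ : (ZMod m)ˣ) * c y x - β) ∧
      (z0 : ZMod m) = (g⁻¹ : (ZMod m)ˣ) * c w y - β ∧
      (∀ C, Ch (XX w y) (m - 1) C → 1 ≤ z0 + ∑ o ∈ C, val o ∧ z0 + ∑ o ∈ C, val o ≤ m - 1) ∧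
      (∀ x ∈ F, val (x, true) - val (x, false) = n x) ∧ (∀ x ∈ F, n x ≠ 0) := by
  obtain ⟨g, n, hn, hc, hcm⟩ := cube_zmod (dd c w y) F hd hap hF
  have hn0 : ∀ x ∈ F, n x ≠ 0 := by
    intro x hx h0
    apply hd x hx
    rw [hn x hx, h0, zero_smul]
  obtain ⟨β, z0, val, h1, h2, h3, h4⟩ := pair_lift_gen hs hV c hz hwy F hFX hF g n hn0
    (by
      intro x hx
      have := hn x hx
      unfold dd at this
      rw [← this]
      ring)
    (by
      have : ((cube (dd c w y) F).card : ℤ) + 1 ≤ m := by exact_mod_cast hcm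
      omega)
  exact ⟨g, n, β, z0, val, h1, h2, h3, h4, hn0⟩

end ZS44129
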